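import Mathlib
import Pool.Agent.Q200.Hull

/-!
# MP_d02918_lc: there is no uniform bound

For every cardinal `κ` there is an ordered field `K` with more than `κ` definable non-trivial convex
valuation rings whose image in the natural value group is not definable.
-/

namespace Pool.Agent.Results.MP_d02918_lc.NoCardinalBound

open Q200 Q200.DOAG Q200.Hull Cardinal

universe u

section Defs

variable (K : Type u) [Field K] [LinearOrder K] [IsStrictOrderedRing K]

/-- The value group `G = v_nat(Kˣ)` of the natural valuation: the ordered abelian group of the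
archimedean classes of non-zero elements of `K`. (`ArchimedeanClass K` is the group of archimedean
classes with a top element, the class of `0`; its additively invertible elements are the classes of
non-zero elements.) -/
abbrev Gnat : Type u := AddUnits (ArchimedeanClass K)

/-- The definable rank of `K`: definable convex valuation rings different from `K`. -/
def drkField : Set (ValuationSubring K) :=
  {O | O ≠ ⊤ ∧ Set.OrdConnected (O : Set K) ∧ DefinableInField K (O : Set K)}

/-- The definable rank of an ordered abelian group: definable convex subgroups different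
from `G`. -/
def drkGroup (G : Type u) [AddCommGroup G] [LinearOrder G] : Set (AddSubgroup G) :=
  {H | H ≠ ⊤ ∧ Set.OrdConnected (H : Set G) ∧ DefinableInGroup G (H : Set G)}

variable {K}

/-- `Φ_K(O) = v_nat(O^×)`. -/
def Phi (O : ValuationSubring K) : Set (Gnat K) :=
  {g | ∃ a : K, a ≠ 0 ∧ a ∈ O ∧ a⁻¹ ∈ O ∧ (g : ArchimedeanClass K) = ArchimedeanClass.mk a}

variable (K)

/-- `drk_K ∖ Φ_K⁻¹(drk_G)`. -/
def badSet : Set (ValuationSubring K) :=
  {O | O ∈ drkField K ∧ ¬ ∃ H ∈ drkGroup (Gnat K), (H : Set (Gnat K)) = Phi O}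

end Defs

section Divisible

variable {K R : Type u} [Field K] [LinearOrder K] [IsStrictOrderedRing K]
  [Field R] [LinearOrder R] [IsStrictOrderedRing R] [Algebra K R] [IsRealClosed R]

/-- If `K` is dense in a real closed field `R` then its natural value group is divisible. -/
theorem divisible (hmono : StrictMono (algebraMap K R))
    (hdense : ∀ u v : R, u < v → ∃ x : K, u < algebraMap K R x ∧ algebraMap K R x < v) :
    ∀ (m : ℤ), m ≠ 0 → ∀ g : Gnat K, ∃ h : Gnat K, m • h = g := by
  -- positive multiples first
  have key : ∀ n : ℕ, n ≠ 0 → ∀ g : Gnat K, ∃ h : Gnat K, n • h = g := by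
    intro n hn g
    obtain ⟨a, ha⟩ : ∃ a : K, ArchimedeanClass.mk a = (g : ArchimedeanClass K) := by
      induction (g : ArchimedeanClass K) using ArchimedeanClass.ind with
      | mk a => exact ⟨a, rfl⟩
    have ha0 : a ≠ 0 := by
      rintro rfl
      have h1 : (g : ArchimedeanClass K) ≠ ⊤ :=
        LinearOrderedAddCommGroupWithTop.isAddUnit_iff.mp g.isAddUnit
      exact h1 (by rw [← ha, ArchimedeanClass.mk_zero])
    have hapos : 0 < algebraMap K R |a| := by
      rw [← map_zero (algebraMap K R)]
      exact hmono (abs_pos.mpr ha0)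
    obtain ⟨r, hr⟩ := IsRealClosed.exists_eq_pow_of_nonneg hapos.le hn
    have hr' : |r| ^ n = algebraMap K R |a| := by
      rw [← abs_pow, ← hr, abs_of_pos hapos]
    have hr0 : 0 < |r| := by
      rw [abs_pos]
      rintro rfl
      rw [zero_pow hn] at hr
      exact hapos.ne' hr
    obtain ⟨x, hx1, hx2⟩ := hdense |r| (2 * |r|) (by linarith)
    have hx0 : 0 < x := by
      have : algebraMap K R 0 < algebraMap K R x := by
        rw [map_zero]; exact hr0.trans hx1
      exact hmono.lt_iff_lt.mp this
    have h1 : |a| < x ^ n := by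
      apply hmono.lt_iff_lt.mp
      rw [← hr', map_pow]
      exact pow_lt_pow_left₀ hx1 (abs_nonneg _) hn
    have h2 : x ^ n < 2 ^ n * |a| := by
      apply hmono.lt_iff_lt.mp
      rw [map_mul, ← hr', map_pow, map_pow, map_ofNat, ← mul_pow]
      exact pow_lt_pow_left₀ hx2 ((abs_nonneg r).trans hx1.le) hn
    have hmk : ArchimedeanClass.mk (x ^ n) = ArchimedeanClass.mk a := by
      rw [ArchimedeanClass.mk_eq_mk]
      have hxn : |x ^ n| = x ^ n := abs_of_pos (pow_pos hx0 n)
      constructor
      · refine ⟨1, ?_⟩
        rw [one_smul, hxn]; exact h1.le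
      · refine ⟨2 ^ n, ?_⟩
        rw [hxn, nsmul_eq_mul]
        push_cast
        exact h2.le
    have hunit : IsAddUnit (ArchimedeanClass.mk x) := by
      apply LinearOrderedAddCommGroupWithTop.isAddUnit_iff.mpr
      intro h
      rw [ArchimedeanClass.mk_eq_top_iff] at h
      exact hx0.ne' h
    refine ⟨hunit.addUnit, ?_⟩
    apply AddUnits.ext
    rw [AddUnits.val_nsmul_eq_nsmul_val, IsAddUnit.addUnit_spec, ← ArchimedeanClass.mk_pow, hmk, ha]
  intro m hm g
  rcases lt_or_gt_of_ne hm with h | h
  · obtain ⟨h', hh'⟩ := key m.natAbs (by omega) g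
    refine ⟨-h', ?_⟩
    have : m = -(m.natAbs : ℤ) := by omega
    rw [this, neg_smul_neg, natCast_zsmul, hh']
  · obtain ⟨h', hh'⟩ := key m.natAbs (by omega) g
    refine ⟨h', ?_⟩
    have : m = (m.natAbs : ℤ) := by omega
    rw [this, natCast_zsmul, hh']

end Divisible

/-- **MP_d02918_lc, Q1: no.** For every cardinal `κ` there is an ordered field `K` with more than `κ`
definable non-trivial convex valuation rings `O` such that `Φ_K(O)` is not definable in the natural
value group. -/
theorem result (κ : Cardinal.{u}) : ∃ (K : Type u) (_ : Field K) (_ : LinearOrder K)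
    (_ : IsStrictOrderedRing K), κ < #(badSet K) := by
  obtain ⟨k, _, _, _, _, I, O, hI, hinj, hconv, hinf⟩ := ManyRings.exists_many κ
  obtain ⟨K, _, _, _, R, _, _, _, _, i, hR, halg, hmono, hi, hdense, hk, hcut⟩ :=
    CutField.main_construction k
  refine ⟨K, inferInstance, inferInstance, inferInstance, ?_⟩
  have hdiv := divisible (K := K) (R := R) hmono hdense
  let V : I → ValuationSubring K := fun j => hull i hi (O j) (hconv j)
  have hb : ∀ j, ∃ b : K, ∀ y : k, i y < b ↔ ∃ x ∈ O j, y ≤ x := by
    intro j
    obtain ⟨b, hb⟩ := hcut {y | ∃ x ∈ O j, y ≤ x} ⟨0, 0, (O j).zero_mem, le_rfl⟩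
      (by rintro x ⟨w, hw, hxw⟩ y hyx; exact ⟨w, hw, hyx.trans hxw⟩)
      (by rintro x ⟨w, hw, hxw⟩
          exact ⟨w + 1, (O j).add_mem hw (O j).one_mem, by linarith⟩)
    exact ⟨b, hb⟩
  choose b hb using hb
  have hVtop : ∀ j, V j ≠ ⊤ := by
    intro j htop
    have : b j ∈ V j := by rw [htop]; trivial
    obtain ⟨y, hy, hby⟩ := this
    have h1 : i (y + 1) < b j := (hb j (y + 1)).mpr ⟨y + 1, (O j).add_mem hy (O j).one_mem, le_rfl⟩
    have h2 : i y < i (y + 1) := hi (lt_add_one y)
    have h3 : b j ≤ |b j| := le_abs_self _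
    exact absurd (h2.trans h1) (not_lt.mpr (h3.trans hby))
  have hVbad : ∀ j, V j ∈ badSet K := by
    intro j
    refine ⟨⟨hVtop j, hull_convex i hi (O j) (hconv j),
      hull_definable i hi (O j) (hconv j) hk (b j) (hb j)⟩, ?_⟩
    rintro ⟨H, ⟨hH1, hH2, hH3⟩, hH4⟩
    rcases convex_definable_trivial hdiv H
      (fun x hx y h1 h2 => hH2.out H.zero_mem hx ⟨h1, h2⟩) hH3 with h | h
    · -- `H = 0` is impossible
      obtain ⟨x, hx, hx'⟩ := hinf j
      have hxpos : 0 < x := by simpa using hx' 0
      have hix : 0 < i x := by rw [← map_zero i]; exact hi hxpos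
      have hix1 : 1 < i x := by
        rw [← map_one i]; apply hi; simpa using hx' 1
      have hmk : ArchimedeanClass.mk (i x) ≠ 0 := by
        intro h0
        rw [← ArchimedeanClass.mk_one, ArchimedeanClass.mk_eq_mk] at h0
        obtain ⟨⟨n, hn⟩, ⟨m, hm⟩⟩ := h0
        have h5 : i x ≤ (m : K) := by
          have : |i x| ≤ m • |(1 : K)| := by assumption
          rw [abs_of_pos hix, abs_one, nsmul_eq_mul, mul_one] at this
          exact this
        have h6 : i (m : k) < i x := hi (hx' m)
        rw [map_natCast] at h6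
        exact absurd h6 (not_lt.mpr h5)
      have hunit : IsAddUnit (ArchimedeanClass.mk (i x)) := by
        apply LinearOrderedAddCommGroupWithTop.isAddUnit_iff.mpr
        intro h
        rw [ArchimedeanClass.mk_eq_top_iff] at h
        exact hix.ne' h
      have hmem : hunit.addUnit ∈ Phi (V j) := by
        refine ⟨i x, hix.ne', map_mem_hull.mpr hx, ⟨1, (O j).one_mem, ?_⟩, rfl⟩
        rw [abs_inv, map_one, abs_of_pos hix]
        exact inv_le_one_of_one_le₀ hix1.le
      rw [← hH4, h] at hmem
      have h7 : hunit.addUnit = 0 := by simpa using hmem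
      apply hmk
      have := congrArg AddUnits.val h7
      simpa using this
    · exact hH1 h
  have hVinj : Function.Injective V := by
    intro j l hjl
    apply hinj
    ext y
    rw [← map_mem_hull (i := i) (hi := hi) (hO := hconv j),
      ← map_mem_hull (i := i) (hi := hi) (hO := hconv l)]
    change i y ∈ V j ↔ i y ∈ V l
    rw [hjl]
  refine lt_of_lt_of_le hI ?_
  exact mk_le_of_injective (f := fun j => (⟨V j, hVbad j⟩ : badSet K))
    (fun j l h => hVinj (congrArg Subtype.val h))

end Pool.Agent.Results.MP_d02918_lc.NoCardinalBound
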